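import Mathlib
import Pool.Agent.H.MP_7b5b6d_co.A

set_option autoImplicit false

namespace Pool.Agent.Results.MP_7b5b6d_co.Zelinka

open Finset Pool.Agent.H.MP_7b5b6d_co

/-- `X` is dominating in `H`: every vertex is in `X` or adjacent to a vertex of `X`. -/
def Dominating {W : Type*} (H : SimpleGraph W) (X : Set W) : Prop :=
  ∀ v, v ∈ X ∨ ∃ w ∈ X, H.Adj v w

/-- The domatic number: the largest `k` such that the vertex set can be partitioned into `k`
(nonempty) dominating sets; the partition is given by a surjection onto `Fin k`. -/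
noncomputable def dom {W : Type*} (H : SimpleGraph W) : ℕ :=
  sSup {k | ∃ P : W → Fin k, Function.Surjective P ∧ ∀ i, Dominating H (P ⁻¹' {i})}

lemma cover {V : Type*} [Fintype V] [DecidableEq V] (G : SimpleGraph V) [DecidableRel G.Adj]
    (d : ℕ) (hd2 : 2 ≤ d) (hd : ∀ v, d ≤ G.degree v) :
    ∃ (I : Set V) (F : V → V → ℕ), (∀ x y, G.Adj x y → x ∈ I → y ∉ I) ∧
      (∀ x y, F x y = F y x) ∧ ∀ v, v ∉ I → ∀ i < d, ∃ w, G.Adj v w ∧ F v w = i := by
  classical
  obtain ⟨I, hI, hmax⟩ := Finset.exists_max_image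
    ((Finset.univ : Finset (Finset V)).filter fun I => ∀ x y, G.Adj x y → x ∈ I → y ∉ I)
    Finset.card ⟨∅, by simp⟩
  simp only [Finset.mem_filter, Finset.mem_univ, true_and] at hI hmax
  have hT : ∀ v, ∃ T : Finset V, v ∉ I → (∀ w ∈ T, G.Adj v w) ∧ T.card = d ∧ ∃ w ∈ T, w ∈ I := by
    intro v
    by_cases hv : v ∈ I
    · exact ⟨∅, fun h => absurd hv h⟩
    · obtain ⟨w, hw, hwI⟩ : ∃ w, G.Adj v w ∧ w ∈ I := by
        by_contra hcon
        push Not at hcon
        have := hmax (insert v I) (by
          intro x y hxy hx hy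
          rcases Finset.mem_insert.1 hx with rfl | hx'
          · rcases Finset.mem_insert.1 hy with rfl | hy'
            · exact G.irrefl hxy
            · exact hcon y hxy hy'
          · rcases Finset.mem_insert.1 hy with rfl | hy'
            · exact hcon x hxy.symm hx'
            · exact hI x y hxy hx' hy')
        rw [Finset.card_insert_of_notMem hv] at this
        omega
      obtain ⟨T, h1, h2, h3⟩ := Finset.exists_subsuperset_card_eq (s := {w})
        (t := G.neighborFinset v) (n := d) (by simpa using hw) (by simp; omega)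
        (by simpa using hd v)
      exact ⟨T, fun _ => ⟨fun z hz => by simpa using h2 hz, h3, w, h1 (by simp), hwI⟩⟩
  choose T hT using hT
  let A : V → Finset V := fun v => (T v).filter (· ∉ I)
  let ep : V → V → V ⊕ (V × V) := fun x y => if y ∈ A x then Sum.inl x else Sum.inr (x, y)
  have ep1 : ∀ x y x' y', ep x y = ep x' y' → x = x' := by
    intro x y x' y' h
    simp only [ep] at h
    split_ifs at h <;> simp_all
  let S : SimpleGraph (V ⊕ (V × V)) :=
    { Adj := fun p q => ∃ x y, G.Adj x y ∧ x ∉ I ∧ y ∉ I ∧ p = ep x y ∧ q = ep y x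
      symm := ⟨fun p q ⟨x, y, h1, h2, h3, h4, h5⟩ => ⟨y, x, h1.symm, h3, h2, h5, h4⟩⟩
      loopless := ⟨fun p ⟨x, y, h1, _, _, h4, h5⟩ => h1.ne (ep1 _ _ _ _ (h4.symm.trans h5))⟩ }
  have hsplit : ∀ v, v ∉ I → (A v).card + ((T v).filter (· ∈ I)).card = d ∧
      0 < ((T v).filter (· ∈ I)).card := by
    intro v hv
    obtain ⟨_, h2, w, h3, h4⟩ := hT v hv
    refine ⟨?_, Finset.card_pos.2 ⟨w, Finset.mem_filter.2 ⟨h3, h4⟩⟩⟩
    rw [add_comm, Finset.card_filter_add_card_filter_not, h2]
  obtain ⟨c, hc⟩ := vizing S (Finset.range d) (by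
    intro p
    rw [Finset.card_range, ← SimpleGraph.card_neighborFinset_eq_degree]
    rcases p with x | ⟨x, y⟩
    · by_cases hx : x ∈ I
      · have : S.neighborFinset (Sum.inl x) = ∅ := by
          ext q
          simp only [SimpleGraph.mem_neighborFinset, Finset.notMem_empty, iff_false]
          rintro ⟨x', y', _, h2, _, h4, _⟩
          simp only [ep] at h4
          split_ifs at h4
          · exact h2 (Sum.inl.inj h4 ▸ hx)
        rw [this]; simp; omega
      · have : S.neighborFinset (Sum.inl x) ⊆ (A x).image fun y => ep y x := by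
          intro q hq
          rw [SimpleGraph.mem_neighborFinset] at hq
          obtain ⟨x', y', _, _, _, h4, h5⟩ := hq
          simp only [ep] at h4
          split_ifs at h4 with h6
          · have := Sum.inl.inj h4
            subst this
            exact Finset.mem_image.2 ⟨y', h6, h5.symm⟩
        have h1 := (Finset.card_le_card this).trans Finset.card_image_le
        have := hsplit x hx
        omega
    · have : S.neighborFinset (Sum.inr (x, y)) ⊆ {ep y x} := by
        intro q hq
        rw [SimpleGraph.mem_neighborFinset] at hq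
        obtain ⟨x', y', _, _, _, h4, h5⟩ := hq
        simp only [ep] at h4
        split_ifs at h4 with h6
        · have := Prod.mk.inj (Sum.inr.inj h4)
          rw [h5, this.1, this.2]; simp
      have h1 := Finset.card_le_card this
      simp only [Finset.card_singleton] at h1
      omega)
  have hadj : ∀ v, v ∉ I → ∀ y ∈ A v, S.Adj (Sum.inl v) (ep y v) ∧ ep v y = Sum.inl v := by
    intro v hv y hy
    have e : ep v y = Sum.inl v := by simp only [ep, hy, if_true]
    have hy' := Finset.mem_filter.1 hy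
    exact ⟨⟨v, y, (hT v hv).1 y hy'.1, hv, hy'.2, e.symm, rfl⟩, e⟩
  have hg : ∀ v, ∃ g : V → ℕ, v ∉ I → ∀ i < d,
      i ∉ (A v).image (fun y => c (Sum.inl v) (ep y v)) → ∃ w ∈ T v, w ∈ I ∧ g w = i := by
    intro v
    by_cases hv : v ∈ I
    · exact ⟨fun _ => 0, fun h => absurd hv h⟩
    · have hinj : ((A v).image (fun y => c (Sum.inl v) (ep y v))).card = (A v).card := by
        apply Finset.card_image_of_injOn
        intro y hy z hz e
        exact ep1 _ _ _ _ (hc.inj _ _ _ (hadj v hv y hy).1 (hadj v hv z hz).1 e)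
      have hsub : (A v).image (fun y => c (Sum.inl v) (ep y v)) ⊆ Finset.range d := by
        intro i hi
        obtain ⟨y, hy, rfl⟩ := Finset.mem_image.1 hi
        exact hc.mem _ _ (hadj v hv y hy).1
      have hcard : ((T v).filter (· ∈ I)).card =
          (Finset.range d \ (A v).image (fun y => c (Sum.inl v) (ep y v))).card := by
        rw [Finset.card_sdiff_of_subset hsub, hinj, Finset.card_range]
        have := hsplit v hv
        omega
      let e := Finset.equivOfCardEq hcard
      refine ⟨fun w => if h : w ∈ (T v).filter (· ∈ I) then (e ⟨w, h⟩ : ℕ) else 0,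
        fun _ i hi hni => ?_⟩
      have hm : i ∈ Finset.range d \ (A v).image (fun y => c (Sum.inl v) (ep y v)) :=
        Finset.mem_sdiff.2 ⟨Finset.mem_range.2 hi, hni⟩
      have h2 := (e.symm ⟨i, hm⟩).2
      refine ⟨e.symm ⟨i, hm⟩, (Finset.mem_filter.1 h2).1, (Finset.mem_filter.1 h2).2, ?_⟩
      simp only [h2, dif_pos, Subtype.coe_eta, Equiv.apply_symm_apply]
  choose g hg using hg
  refine ⟨(I : Set V), fun x y => if x ∈ I ∧ y ∉ I then g y x else if y ∈ I ∧ x ∉ I then g x y
    else c (ep x y) (ep y x), fun x y h hx => by simpa using hI x y h (by simpa using hx), ?_, ?_⟩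
  · intro x y
    by_cases hx : x ∈ I <;> by_cases hy : y ∈ I <;> simp [hx, hy, hc.symm (ep x y)]
  · intro v hv' i hi
    have hv : v ∉ I := by simpa using hv'
    by_cases hm : i ∈ (A v).image (fun y => c (Sum.inl v) (ep y v))
    · obtain ⟨y, hy, e⟩ := Finset.mem_image.1 hm
      have hy' := Finset.mem_filter.1 hy
      refine ⟨y, (hT v hv).1 y hy'.1, ?_⟩
      simp only [hv, hy'.2, false_and, if_false, (hadj v hv y hy).2]
      exact e
    · obtain ⟨w, h1, h2, h3⟩ := hg v hv i hi hm
      refine ⟨w, (hT v hv).1 w h1, ?_⟩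
      simp only [hv, h2, false_and, if_false, not_false_eq_true, and_self, if_true]
      exact h3

theorem result {V : Type*} [Fintype V] [DecidableEq V] (G : SimpleGraph V) [DecidableRel G.Adj] :
    G.minDegree ≤ dom G.lineGraph := by
  classical
  have hbdd : BddAbove {k | ∃ P : G.edgeSet → Fin k, Function.Surjective P ∧
      ∀ i, Dominating G.lineGraph (P ⁻¹' {i})} := by
    refine ⟨Fintype.card G.edgeSet, ?_⟩
    rintro k ⟨P, hP, _⟩
    simpa using Fintype.card_le_of_surjective P hP
  rcases Nat.eq_zero_or_pos G.minDegree with h0 | hpos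
  · omega
  have hne : Nonempty G.edgeSet := by
    rcases isEmpty_or_nonempty V with hV | hV
    · simp [SimpleGraph.minDegree] at hpos
    · obtain ⟨v⟩ := hV
      have := G.minDegree_le_degree v
      obtain ⟨w, hw⟩ := (G.degree_pos_iff_exists_adj v).1 (by omega)
      exact ⟨⟨s(v, w), hw⟩⟩
  apply le_csSup hbdd
  suffices h : ∃ P : G.edgeSet → Fin G.minDegree, ∀ i, Dominating G.lineGraph (P ⁻¹' {i}) by
    obtain ⟨P, hP⟩ := h
    refine ⟨P, fun i => ?_, hP⟩
    obtain ⟨e⟩ := hne
    rcases hP i e with h | ⟨w, h, _⟩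
    · exact ⟨e, h⟩
    · exact ⟨w, h⟩
  by_cases h1 : G.minDegree = 1
  · refine ⟨fun _ => ⟨0, hpos⟩, fun i e => Or.inl ?_⟩
    simp only [Set.mem_preimage, Set.mem_singleton_iff]
    apply Fin.ext
    have := i.2
    simp only
    omega
  obtain ⟨I, F, hI, hF, hc⟩ := cover G G.minDegree (by omega) G.minDegree_le_degree
  let P : G.edgeSet → Fin G.minDegree := fun e =>
    ⟨Sym2.lift ⟨F, hF⟩ e.1 % G.minDegree, Nat.mod_lt _ hpos⟩
  refine ⟨P, fun i e => ?_⟩
  obtain ⟨v, hv, hvI⟩ : ∃ v, v ∈ (e : Sym2 V) ∧ v ∉ I := by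
    obtain ⟨e, he⟩ := e
    induction e using Sym2.ind with
    | _ x y =>
      by_cases hx : x ∈ I
      · exact ⟨y, by simp, hI x y he hx⟩
      · exact ⟨x, by simp, hx⟩
  obtain ⟨w, hw, hi⟩ := hc v hvI i i.2
  have hP : P ⟨s(v, w), hw⟩ = i := by
    apply Fin.ext
    simp only [P, Sym2.lift_mk, hi]
    exact Nat.mod_eq_of_lt i.2
  by_cases e1 : e = ⟨s(v, w), hw⟩
  · left; rw [e1]; exact hP
  · right
    exact ⟨⟨s(v, w), hw⟩, hP, SimpleGraph.lineGraph_adj_iff_exists.2 ⟨e1, v, hv, by simp⟩⟩

end Pool.Agent.Results.MP_7b5b6d_co.Zelinka
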